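import Pool.Agent.EDX.Stmts3

/-!
# Squad EDX, row LLN: the sum of `log (1 + ∏ c)`
-/

set_option autoImplicit false

namespace Pool.Agent.EDX.H86

open Finset

/-- `log (1 + u) ≤ u ^ t / t` for `0 < t ≤ 1`, `0 < u` -/
theorem log_one_add_le {u t : ℝ} (hu : 0 < u) (ht : 0 < t) (ht1 : t ≤ 1) :
    Real.log (1 + u) ≤ (1 / t) * u ^ t := by
  have hp : 1 ≤ 1 / t := by rw [le_div_iff₀ ht]; linarith
  have hut : 0 < u ^ t := Real.rpow_pos_of_pos hu t
  have h1 := Real.add_rpow_le_rpow_add (a := 1) (b := u ^ t) (by norm_num) hut.le hp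
  rw [Real.one_rpow, ← Real.rpow_mul hu.le, mul_one_div_cancel ht.ne', Real.rpow_one] at h1
  have h2 : Real.log (1 + u) ≤ (1 / t) * Real.log (1 + u ^ t) := by
    rw [← Real.log_rpow (by positivity)]
    exact Real.log_le_log (by positivity) h1
  have h3 : Real.log (1 + u ^ t) ≤ u ^ t := by
    have := Real.log_le_sub_one_of_pos (x := 1 + u ^ t) (by positivity)
    linarith
  exact le_trans h2 (mul_le_mul_of_nonneg_left h3 (by positivity))

/-- `exp (t l) ≤ 1 + t l + t ^ 2 (l ^ 2 exp |l|)` for `0 ≤ t ≤ 1` -/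
theorem exp_le_quad {l t : ℝ} (ht : 0 ≤ t) (ht1 : t ≤ 1) :
    Real.exp (t * l) ≤ 1 + t * l + t ^ 2 * (l ^ 2 * Real.exp |l|) := by
  have h := Complex.norm_exp_sub_sum_le_norm_mul_exp ((t * l : ℝ) : ℂ) 2
  rw [Finset.sum_range_succ, Finset.sum_range_one] at h
  have e1 : Complex.exp ((t * l : ℝ) : ℂ) - (((t * l : ℝ) : ℂ) ^ 0 / (Nat.factorial 0 : ℂ)
      + ((t * l : ℝ) : ℂ) ^ 1 / (Nat.factorial 1 : ℂ)) = ((Real.exp (t * l) - (1 + t * l) : ℝ) : ℂ) := by
    push_cast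
    simp
  rw [e1, Complex.norm_real, Complex.norm_real, Real.norm_eq_abs, Real.norm_eq_abs, abs_mul,
    abs_of_nonneg ht] at h
  have h2 : Real.exp (t * |l|) ≤ Real.exp |l| := by
    refine Real.exp_le_exp.mpr ?_
    calc t * |l| ≤ 1 * |l| := mul_le_mul_of_nonneg_right ht1 (abs_nonneg l)
      _ = |l| := one_mul _
  have h3 : (t * |l|) ^ 2 * Real.exp (t * |l|) ≤ t ^ 2 * (l ^ 2 * Real.exp |l|) := by
    rw [mul_pow, sq_abs]
    calc t ^ 2 * l ^ 2 * Real.exp (t * |l|) ≤ t ^ 2 * l ^ 2 * Real.exp |l| :=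
          mul_le_mul_of_nonneg_left h2 (by positivity)
      _ = _ := by ring
  have h4 := le_trans (le_abs_self _) (le_trans h h3)
  linarith

theorem lln : LlnStmt := by
  intro Q c hc hprod
  obtain ⟨A, hA⟩ : ∃ A : ℝ, A = ∑ x, (Real.log (c x)) ^ 2 * Real.exp |Real.log (c x)| := ⟨_, rfl⟩
  have hA0 : 0 ≤ A := by
    rw [hA]
    exact Finset.sum_nonneg fun x _ => by positivity
  refine ⟨Real.exp A, (Real.exp_pos A).le, ?_⟩
  intro m hm
  have hm0 : (0 : ℝ) < m := by exact_mod_cast hm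
  rcases Nat.eq_zero_or_pos Q with hQ | hQ
  · subst hQ
    have hE : IsEmpty (Fin m → Fin 0) := ⟨fun f => (f ⟨0, hm⟩).elim0⟩
    rw [Finset.univ_eq_empty, Finset.sum_empty]
    positivity
  have hQ1 : (1 : ℝ) ≤ Q := by exact_mod_cast hQ
  obtain ⟨t, ht⟩ : ∃ t : ℝ, t = 1 / Real.sqrt m := ⟨_, rfl⟩
  have hsq : 1 ≤ Real.sqrt m := by
    rw [Real.one_le_sqrt]
    exact_mod_cast hm
  have hsq0 : 0 < Real.sqrt m := by linarith
  have ht0 : 0 < t := by rw [ht]; positivity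
  have ht1 : t ≤ 1 := by rw [ht, div_le_one hsq0]; exact hsq
  have htinv : 1 / t = Real.sqrt m := by rw [ht, one_div_one_div]
  have ht2 : t ^ 2 = 1 / m := by
    rw [ht, div_pow, one_pow, Real.sq_sqrt hm0.le]
  have hsum1 : ∑ x, (c x) ^ t ≤ Q * (1 + A / m) := by
    have h1 : ∀ x, (c x) ^ t ≤ 1 + t * Real.log (c x) +
        t ^ 2 * ((Real.log (c x)) ^ 2 * Real.exp |Real.log (c x)|) := by
      intro x
      rw [Real.rpow_def_of_pos (hc x), mul_comm (Real.log (c x)) t]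
      exact exp_le_quad ht0.le ht1
    have h2 : ∑ x, (c x) ^ t ≤ ∑ x, (1 + t * Real.log (c x) +
        t ^ 2 * ((Real.log (c x)) ^ 2 * Real.exp |Real.log (c x)|)) :=
      Finset.sum_le_sum fun x _ => h1 x
    rw [Finset.sum_add_distrib, Finset.sum_add_distrib, Finset.sum_const, Finset.card_univ,
      Fintype.card_fin, nsmul_eq_mul, mul_one, ← Finset.mul_sum, ← Finset.mul_sum, ← hA,
      ← Real.log_prod (fun x _ => (hc x).ne')] at h2
    have h3 : Real.log (∏ x, c x) ≤ 0 :=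
      Real.log_nonpos (Finset.prod_nonneg fun x _ => (hc x).le) hprod
    have h4 : t * Real.log (∏ x, c x) ≤ 0 := mul_nonpos_of_nonneg_of_nonpos ht0.le h3
    have h5 : t ^ 2 * A ≤ Q * (A / m) := by
      rw [ht2]
      have : 1 / (m : ℝ) * A = 1 * (A / m) := by ring
      rw [this]
      exact mul_le_mul_of_nonneg_right hQ1 (by positivity)
    calc ∑ x, (c x) ^ t ≤ Q + t * Real.log (∏ x, c x) + t ^ 2 * A := h2
      _ ≤ Q + 0 + Q * (A / m) := by linarith
      _ = Q * (1 + A / m) := by ring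
  have hsum0 : 0 ≤ ∑ x, (c x) ^ t :=
    Finset.sum_nonneg fun x _ => Real.rpow_nonneg (hc x).le _
  have hpow : (∑ x, (c x) ^ t) ^ m ≤ (Q : ℝ) ^ m * Real.exp A := by
    calc (∑ x, (c x) ^ t) ^ m ≤ (Q * (1 + A / m)) ^ m := pow_le_pow_left₀ hsum0 hsum1 m
      _ = (Q : ℝ) ^ m * (1 + A / m) ^ m := mul_pow _ _ _
      _ ≤ (Q : ℝ) ^ m * Real.exp A := by
        refine mul_le_mul_of_nonneg_left ?_ (by positivity)
        have h1 : 1 + A / m ≤ Real.exp (A / m) := by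
          have := Real.add_one_le_exp (A / m)
          linarith
        calc (1 + A / m) ^ m ≤ (Real.exp (A / m)) ^ m :=
              pow_le_pow_left₀ (by positivity) h1 m
          _ = Real.exp A := by
              rw [← Real.exp_nat_mul, mul_div_cancel₀ _ hm0.ne']
  have hmain : ∀ l : Fin m → Fin Q, Real.log (1 + ∏ j, c (l j)) ≤
      (1 / t) * ∏ j, (c (l j)) ^ t := by
    intro l
    rw [Real.finsetProd_rpow _ _ (fun j _ => (hc (l j)).le)]
    exact log_one_add_le (Finset.prod_pos fun j _ => hc (l j)) ht0 ht1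
  calc ∑ l : Fin m → Fin Q, Real.log (1 + ∏ j, c (l j))
      ≤ ∑ l : Fin m → Fin Q, (1 / t) * ∏ j, (c (l j)) ^ t :=
        Finset.sum_le_sum fun l _ => hmain l
    _ = (1 / t) * (∑ x, (c x) ^ t) ^ m := by
        rw [← Finset.mul_sum, Fintype.sum_pow]
    _ ≤ (1 / t) * ((Q : ℝ) ^ m * Real.exp A) :=
        mul_le_mul_of_nonneg_left hpow (by positivity)
    _ = Real.exp A * Real.sqrt m * (Q : ℝ) ^ m := by
        rw [htinv]
        ring

end Pool.Agent.EDX.H86
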